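import Pool.Agent.Work.MP_3617d5_ea.All

/-!
# MP_3617d5_al: finite extensions of adjoint groups of radical rings by ring automorphisms
-/

set_option autoImplicit false

universe u

namespace Pool.Agent.Results.MP_3617d5_al.FiniteExtensions

open Pool.NR Pool.EA

/-- Let `p` be a prime, `n, m < p`, `G` an `n`-Engel `p`-group, `K` an `m`-Engel `p`-group with a normal subgroup of finite index which is
the adjoint group of a radical ring `R`, such that `K` acts (by conjugation) by automorphisms of the ring `R`. If there is a homomorphism
from `G` to `K` with soluble kernel (for example `G = K`), then every element of `G` lies in a nilpotent normal subgroup. -/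
theorem result (p n m : ℕ) (hp : p.Prime) (hn : n < p) (hm : m < p) (G : Type u) [Group G] (hG : IsPGroup p G) (hGE : Engel n G)
    (K : Type u) [Group K] (hK : IsPGroup p K) (hKE : Engel m K) (R : Type u) [NonUnitalRing R]
    (hR : ∀ a : R, IsQuasiregular a) (i : Adj R →* K) (hi : FiniteExt K R i) (f : G →* K)
    (hf : Group.IsSolvable f.ker) : Fitting G :=
  ea_main p n m hp hn hm G hG hGE K hK hKE R hR i hi f hf

end Pool.Agent.Results.MP_3617d5_al.FiniteExtensions
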