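import Pool.Agent.Work.MP_3617d5_en.AllEP
import Pool.Agent.Work.MP_3617d5_en.UNI3

/-!
# MP_3617d5_al: locally finite Engel `p`-groups as normal subgroups of groups of units
-/

set_option autoImplicit false

universe u v

namespace Pool.Agent.Results.MP_3617d5_al.NormalSubgroups

open Pool.NR

/-- the image of an `n`-Engel group is an `n`-Engel group -/
theorem engel_range {G : Type u} {H : Type v} [Group G] [Group H] (n : ℕ) (f : G →* H) (h : Engel n G) :
    Engel n f.range := by
  rintro ⟨_, a, rfl⟩ ⟨_, b, rfl⟩
  have h1 : ∀ k, (fun z : f.range => z⁻¹ * (f.rangeRestrict a)⁻¹ * z * f.rangeRestrict a)^[k]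
      (f.rangeRestrict b) = f.rangeRestrict ((fun z => z⁻¹ * a⁻¹ * z * a)^[k] b) := by
    intro k
    induction k with
    | zero => rfl
    | succ k ih =>
      rw [Function.iterate_succ_apply', Function.iterate_succ_apply', ih, map_mul, map_mul, map_mul, map_inv,
        map_inv]
  exact (h1 n).trans (by rw [h a b, map_one])

/-- Let `p` be a prime, `n < p`, `G` a locally finite `n`-Engel `p`-group, `A` any ring with identity and `χ` a
homomorphism from `G` to the group of units of `A` with soluble kernel. Let `U` be a subgroup of `Aˣ` which contains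
`χ(G)` as a normal subgroup, and contains `1 + x` for every nilpotent `x` in the additive group generated by the elements
`χ g - 1`; `U` need not be an Engel group. Then every element of `G` lies in a nilpotent normal subgroup of `G`. -/
theorem result (p n : ℕ) (hp : p.Prime) (hn : n < p) (G : Type u) [Group G] (hG : IsPGroup p G) (hE : Engel n G)
    (hlf : ∀ s : Set G, s.Finite → ((Subgroup.closure s : Subgroup G) : Set G).Finite)
    (A : Type v) [Ring A] (χ : G →* Aˣ) (hker : Group.IsSolvable χ.ker)
    (U : Subgroup Aˣ) (hU : χ.range ≤ U) (hnrm : (χ.range.subgroupOf U).Normal)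
    (hcl : ∀ x ∈ Submodule.span ℤ (Set.range fun g : G => ((χ g : Aˣ) : A) - 1),
      IsNilpotent x → ∃ w ∈ U, ((w : Aˣ) : A) = 1 + x) : Fitting G :=
  Pool.EN.en_uni3 Pool.EN.enp_FI3 p n n hp hn hn G hG hE hlf A χ hker U hU hnrm (engel_range n χ hE) hcl

end Pool.Agent.Results.MP_3617d5_al.NormalSubgroups
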