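import Pool.Agent.Work.MP_3617d5_rx.Main

/-!
# MP_3617d5_al: Engel `p`-groups of units of radical extensions of Lie Engel rings
-/

set_option autoImplicit false

universe u

namespace Pool.Agent.Results.MP_3617d5_al.RadicalExtensions

open Pool.NR

/-- Let `p` be a prime, `n, m < p`, `G` an `n`-Engel `p`-group, `S` a ring with identity and `I` a two-sided ideal of `S` such that `1 + b` is a
unit for all `b ∈ I` and `S / I` is Lie `m`-Engel (e.g. commutative). Let `f` be a homomorphism from `G` to the group of units of `S`
with soluble kernel, and suppose that `[u, v, .., v] = 1` (`m` times `v`) for all units `u ∈ 1 + I` and all units `v` which are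
in `1 + I` or in `f(G)` (e.g. that the group of units of `S` is `m`-Engel). Then every element of `G` lies in a nilpotent normal subgroup. -/
theorem result (p n m : ℕ) (hp : p.Prime) (hn : n < p) (hm : m < p) (G : Type u) [Group G] (hG : IsPGroup p G)
    (hE : Engel n G) (S : Type u) [Ring S] (I : Ideal S) [I.IsTwoSided] (hI : ∀ b ∈ I, IsUnit (1 + b))
    (hL : LieEngel m (S ⧸ I)) (f : G →* Sˣ) (hf : Group.IsSolvable f.ker)
    (hU : ∀ u v : Sˣ, (u : S) - 1 ∈ I → ((v : S) - 1 ∈ I ∨ v ∈ f.range) →
      (fun z : Sˣ => z⁻¹ * v⁻¹ * z * v)^[m] u = 1) : Fitting G :=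
  Pool.RX.rx_main p n m hp hn hm G hG hE S I hI hL f hf hU

end Pool.Agent.Results.MP_3617d5_al.RadicalExtensions
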