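import Pool.Agent.Work.MP_3617d5_eu.FIN
import Pool.Agent.Work.MP_3617d5_eu.UT
import Pool.Agent.Work.MP_3617d5_eu.UCx
import Pool.Agent.Work.MP_3617d5_ea.All
import Pool.Agent.Work.MP_3fbbd3_adj.NP
import Pool.Agent.Work.MP_3fbbd3_adj.GT

/-!
# MP_3617d5_al: locally finite Engel `p`-groups in Engel groups of units of arbitrary rings
-/

set_option autoImplicit false

universe u v

namespace Pool.Agent.Results.MP_3617d5_al.UnitGroups

open Pool.NR

/-- Let `p` be a prime, `n, m < p`, `G` a locally finite `n`-Engel `p`-group, `A` any ring with identity and `φ` a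
homomorphism from `G` to the group of units of `A` with soluble kernel. Let `U` be a subgroup of `Aˣ` which contains
`φ(G)`, is `m`-Engel (its elements may have infinite order), and contains `1 + x` for every nilpotent `x` in the additive
group generated by the elements `φ g - 1`. Then every element of `G` lies in a nilpotent normal subgroup of `G`. -/
theorem result (p n m : ℕ) (hp : p.Prime) (hn : n < p) (hm : m < p) (G : Type u) [Group G] (hG : IsPGroup p G)
    (hlf : ∀ s : Set G, s.Finite → ((Subgroup.closure s : Subgroup G) : Set G).Finite) (hE : Engel n G)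
    (A : Type v) [Ring A] (φ : G →* Aˣ) (hφ : Group.IsSolvable φ.ker)
    (U : Subgroup Aˣ) (hU : φ.range ≤ U) (hUE : Engel m U)
    (hcl : ∀ x ∈ Submodule.span ℤ (Set.range fun g : G => ((φ g : Aˣ) : A) - 1),
      IsNilpotent x → ∃ w ∈ U, ((w : Aˣ) : A) = 1 + x) : Fitting G :=
  Pool.EU.eu_uni (Pool.EU.blk_EU (Pool.EU.blk_UCx Pool.EA.ea_GCH)
    (Pool.EU.blk_UT (Pool.Agent.Work.MP_3fbbd3_adj.blk_RP Pool.Agent.Work.MP_3fbbd3_adj.blk_GT)
      Pool.Agent.Work.MP_3fbbd3_adj.blk_NP)) p n m hp hn hm G hG hlf hE A φ hφ U hU hUE hcl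

end Pool.Agent.Results.MP_3617d5_al.UnitGroups
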